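import Pool.Agent.W606.SN.Stm

/-!
Project SN: parts STACK and BASE.
-/

namespace Pool.Agent.W361.SN

open Pool.Agent.W606.SN

theorem stack_aux {F T : Type} (GF : SimpleGraph F) (GT : SimpleGraph T) (k : ℕ) (f : F × T → ℕ)
    (col : F × T → F × T → Fin k)
    (hcol : ∀ a b x y, (SP GF GT).Adj a b → (SP GF GT).Adj x y →
      f a < f x → f x < f b → f b < f y → col a b ≠ col x y)
    (s x : ℕ) (W : Set T) (A : F × T → Prop) (a a' b c c' d : F × T)
    (h1 : Tri GF GT W (fun p => f p < s) A f x (a, a', b))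
    (h2 : Tri GF GT W (fun p => f p < s) A f x (c, c', d))
    (e1 : col a a' = col c c') (e2 : col a' b = col c' d) (e3 : col a b = col c d)
    (hac : f a < f c) (n1 : f a' ≠ f c') (n2 : f b ≠ f d) : False := by
  have l1 : f a < x := h1.lt
  have l2 : x ≤ f a' := h1.le
  have l3 : f a' < s := h1.L2
  have l4 : ¬ f b < s := h1.L3
  have l1' : f c < x := h2.lt
  have l2' : x ≤ f c' := h2.le
  have l3' : f c' < s := h2.L2
  have l4' : ¬ f d < s := h2.L3
  have ad : ∀ p q : F × T, f p ≠ f q → RP GF GT p q → (SP GF GT).Adj p q := by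
    intro p q h h'
    exact ⟨fun e => h (by rw [e]), h'⟩
  have A1 : (SP GF GT).Adj a a' := ad _ _ (by omega) h1.r12
  have A2 : (SP GF GT).Adj a' b := ad _ _ (by omega) h1.r23
  have A3 : (SP GF GT).Adj a b := ad _ _ (by omega) h1.r13
  have B1 : (SP GF GT).Adj c c' := ad _ _ (by omega) h2.r12
  have B2 : (SP GF GT).Adj c' d := ad _ _ (by omega) h2.r23
  have B3 : (SP GF GT).Adj c d := ad _ _ (by omega) h2.r13
  have s1 : f c' < f a' := by
    by_contra h
    exact hcol a a' c c' A1 B1 hac (by omega) (by omega) e1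
  have s2 : f b < f d := by
    by_contra h
    exact hcol c' d a' b B2 A2 s1 (by omega) (by omega) e2.symm
  exact hcol a b c d A3 B3 hac (by omega) s2 e3

theorem stack : S_STACK := by
  rintro F T GF GT k f col hf hcol s x W A ⟨t, ht, hd⟩
  have hcard : Fintype.card (Fin k × Fin k × Fin k) < Fintype.card (Fin (k ^ 3 + 1)) := by
    simp only [Fintype.card_prod, Fintype.card_fin]
    have : k * (k * k) = k ^ 3 := by ring
    omega
  obtain ⟨i, j, hij, hc⟩ := Fintype.exists_ne_map_eq_of_card_lt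
    (fun i => (col (t i).1 (t i).2.1, col (t i).2.1 (t i).2.2, col (t i).1 (t i).2.2)) hcard
  simp only [Prod.mk.injEq] at hc
  obtain ⟨e1, e2, e3⟩ := hc
  obtain ⟨d1, d2, d3⟩ := hd i j hij
  have m1 : f (t i).1 ≠ f (t j).1 := fun e => d1 (hf e)
  have m2 : f (t i).2.1 ≠ f (t j).2.1 := fun e => d2 (hf e)
  have m3 : f (t i).2.2 ≠ f (t j).2.2 := fun e => d3 (hf e)
  rcases lt_or_gt_of_ne m1 with h | h
  · exact stack_aux GF GT k f col hcol s x W A _ _ _ _ _ _ (ht i) (ht j) e1 e2 e3 h m2 m3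
  · exact stack_aux GF GT k f col hcol s x W A _ _ _ _ _ _ (ht j) (ht i) e1.symm e2.symm e3.symm h
      m2.symm m3.symm

/-- an isolated point carries no mass of a section -/
theorem isolated_zero {F T : Type} [Fintype F] (GF : SimpleGraph F) (GT : SimpleGraph T)
    (W : Set T) (A : F × T → Prop) (z : T → F → ZMod 2) (hz : Sec GF GT W A z) (v v' : T)
    (hv : v ∈ W) (hv' : v' ∈ W) (hadj : GT.Adj v v') (u : F)
    (hiso : ∀ q : F × T, (q.2 = v ∨ q.2 = v') → RP GF GT (u, v) q → q ≠ (u, v) → ¬ A q) :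
    z v u = 0 := by
  classical
  have h := hz.comp v hv v' hv' hadj (fun p => if p = (u, v) then 1 else 0) (by
    intro p q hp hq hpq hAp hAq
    by_cases h1 : p = (u, v)
    · by_cases h2 : q = (u, v)
      · rw [h1, h2]
      · exact absurd hAq (hiso q hq (h1 ▸ hpq) h2)
    · by_cases h2 : q = (u, v)
      · exact absurd hAp (hiso p hp (h2 ▸ hpq.symm) h1)
      · simp [h1, h2])
  have hl : ∑ w, z v w * (if ((w, v) : F × T) = (u, v) then (1 : ZMod 2) else 0) = z v u := by
    rw [Finset.sum_eq_single u]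
    · simp
    · intro w _ hw
      simp [hw]
    · intro h
      exact absurd (Finset.mem_univ _) h
  have hr : ∑ w, z v' w * (if ((w, v') : F × T) = (u, v) then (1 : ZMod 2) else 0) = 0 := by
    refine Finset.sum_eq_zero fun w _ => ?_
    have : v' ≠ v := hadj.ne'
    simp [this]
  rw [hl, hr] at h
  exact h

theorem base : S_BASE := by
  classical
  rintro F T _ GF GT hconn L pos W hpos ⟨v, hv, v', hv', hadj⟩ A hsub ⟨z, hz⟩ ⟨z', hz'⟩
  by_contra hno
  have star : ∀ a a' b : F × T, a.2 ∈ W → a'.2 ∈ W → b.2 ∈ W → a ≠ a' → RP GF GT a a' →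
      RP GF GT a b → RP GF GT a' b → L a → L a' → ¬ L b → (A a ↔ A a') → (A a ↔ ¬ A b) →
      False := by
    intro a a' b w1 w2 w3 hne r12 r13 r23 l1 l2 l3 a12 a13
    have hp : pos a ≠ pos a' := fun e => hne (hpos e)
    rcases lt_or_gt_of_ne hp with h | h
    · refine hno ⟨pos a', fun _ => (a, a', b), fun _ => ?_, fun i j hij =>
        absurd (Subsingleton.elim i j) hij⟩
      exact ⟨w1, w2, w3, r12, r13, r23, l1, l2, l3, a12, a13, h, le_refl _⟩
    · refine hno ⟨pos a, fun _ => (a', a, b), fun _ => ?_, fun i j hij =>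
        absurd (Subsingleton.elim i j) hij⟩
      exact ⟨w2, w1, w3, r12.symm, r23, r13, l2, l1, l3, a12.symm, a12.symm.trans a13, h,
        le_refl _⟩
  have subs : ∀ p q : F × T, p.2 ∈ W → q.2 ∈ W → RP GF GT p q → (A p ↔ ¬ A q) →
      (L p ↔ ¬ L q) := by
    intro p q hp hq hpq h
    by_cases hA : A p
    · exact hsub p q hp hq hpq hA (h.1 hA)
    · have hq' : A q := by
        by_contra h'
        exact hA (h.2 h')
      have := hsub q p hq hp hpq.symm hq' hA
      tauto
  have claim2 : ∀ u u' : F, GF.Adj u u' → L (u, v) → ¬ L (u', v) →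
      (A (u, v) ↔ ¬ A (u', v)) → ∀ q : F × T, (q.2 = v ∨ q.2 = v') → RP GF GT (u, v) q →
      q ≠ (u, v) → (A (u, v) ↔ ¬ A q) := by
    intro u u' hu hL hL' hA q hq hrel hne
    have hqW : q.2 ∈ W := by rcases hq with h | h <;> rw [h] <;> assumption
    have r1 : RP GF GT (u, v) (u, v') := ⟨Or.inl rfl, Or.inr hadj⟩
    have r2 : RP GF GT (u, v') (u', v) := ⟨Or.inr hu, Or.inr hadj.symm⟩
    have r3 : RP GF GT (u, v) (u', v) := ⟨Or.inr hu, Or.inl rfl⟩
    have side : A (u, v) ↔ ¬ A (u, v') := by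
      by_contra hs
      have hs' : A (u, v) ↔ A (u, v') := by tauto
      have h1 : A (u, v') ↔ ¬ A (u', v) := hs'.symm.trans hA
      have h2 := subs (u, v') (u', v) hv' hv r2 h1
      have h3 : L (u, v') := h2.2 hL'
      refine star (u, v) (u, v') (u', v) hv hv' hv ?_ r1 r3 r2 hL h3 hL' hs' hA
      intro e
      exact hadj.ne (Prod.ext_iff.1 e).2
    have hLn : ¬ L (u, v') := (subs (u, v) (u, v') hv hv' r1 side).1 hL
    by_contra hs
    have hs' : A (u, v) ↔ A q := by tauto
    have r4 : RP GF GT q (u, v') := by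
      refine ⟨hrel.1.symm, ?_⟩
      rcases hq with h | h
      · exact Or.inr (by rw [h]; exact hadj)
      · exact Or.inl h
    have h1 : A q ↔ ¬ A (u, v') := hs'.symm.trans side
    have h2 : L q := (subs q (u, v') hqW hv' r4 h1).2 hLn
    exact star (u, v) q (u, v') hv hqW hv' (Ne.symm hne) hrel r1 r4 hL h2 hLn hs' side
  obtain ⟨I, hIdef⟩ : ∃ I : F → Prop, ∀ u, I u ↔
      (L (u, v) ∧ ∃ u', GF.Adj u u' ∧ (A (u, v) ↔ ¬ A (u', v))) := ⟨_, fun _ => Iff.rfl⟩
  have hI : ∀ u, I u → ∀ q : F × T, (q.2 = v ∨ q.2 = v') → RP GF GT (u, v) q →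
      q ≠ (u, v) → (A (u, v) ↔ ¬ A q) := by
    intro u hIu
    obtain ⟨hL, u', hu, hA⟩ := (hIdef u).1 hIu
    have r3 : RP GF GT (u, v) (u', v) := ⟨Or.inr hu, Or.inl rfl⟩
    exact claim2 u u' hu hL ((subs (u, v) (u', v) hv hv r3 hA).1 hL) hA
  obtain ⟨c, hcdef⟩ : ∃ c : F → Prop, ∀ u, c u ↔ (A (u, v) ↔ ¬ I u) :=
    ⟨_, fun _ => Iff.rfl⟩
  have hstep : ∀ u u1 : F, GF.Adj u u1 → (c u ↔ c u1) := by
    intro u u1 hu
    have r3 : RP GF GT (u, v) (u1, v) := ⟨Or.inr hu, Or.inl rfl⟩
    have ne1 : ((u1, v) : F × T) ≠ (u, v) := by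
      intro e
      exact hu.ne' (Prod.ext_iff.1 e).1
    by_cases hs : A (u, v) ↔ A (u1, v)
    · have n1 : ¬ I u := by
        intro h
        have := hI u h (u1, v) (Or.inl rfl) r3 ne1
        tauto
      have n2 : ¬ I u1 := by
        intro h
        have := hI u1 h (u, v) (Or.inl rfl) r3.symm ne1.symm
        tauto
      rw [hcdef, hcdef]
      tauto
    · have hs' : A (u, v) ↔ ¬ A (u1, v) := by tauto
      have hs'' : A (u1, v) ↔ ¬ A (u, v) := by tauto
      have hl := subs (u, v) (u1, v) hv hv r3 hs'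
      by_cases hL : L (u, v)
      · have i1 : I u := (hIdef u).2 ⟨hL, u1, hu, hs'⟩
        have i2 : ¬ I u1 := fun h => hl.1 hL ((hIdef u1).1 h).1
        rw [hcdef, hcdef]
        tauto
      · have i1 : ¬ I u := fun h => hL ((hIdef u).1 h).1
        have i2 : I u1 := (hIdef u1).2 ⟨by tauto, u, hu.symm, hs''⟩
        rw [hcdef, hcdef]
        tauto
  have hconst : ∀ u u1 : F, c u ↔ c u1 := by
    intro u u1
    obtain ⟨p⟩ := hconn.preconnected u u1
    induction p with
    | nil => exact Iff.rfl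
    | cons h p ih => exact (hstep _ _ h).trans ih
  obtain ⟨u0⟩ := hconn.nonempty
  by_cases h0 : c u0
  · have hall : ∀ u, z' v u = 0 := by
      intro u
      by_cases hA : A (u, v)
      · exact hz'.supp v hv u (fun h => h hA)
      · have hcu : c u := (hconst u0 u).1 h0
        have hIu : I u := by
          rw [hcdef] at hcu
          tauto
        refine isolated_zero GF GT W _ z' hz' v v' hv hv' hadj u ?_
        intro q hq hr hne h
        have := hI u hIu q hq hr hne
        tauto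
    have h1 := hz'.one v hv
    simp [hall] at h1
  · have hall : ∀ u, z v u = 0 := by
      intro u
      by_cases hA : A (u, v)
      · have hcu : ¬ c u := fun h => h0 ((hconst u u0).1 h)
        have hIu : I u := by
          rw [hcdef] at hcu
          tauto
        refine isolated_zero GF GT W _ z hz v v' hv hv' hadj u ?_
        intro q hq hr hne h
        have := hI u hIu q hq hr hne
        tauto
      · exact hz.supp v hv u hA
    have h1 := hz.one v hv
    simp [hall] at h1

end Pool.Agent.W361.SN
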